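import Pool.Agent.Lib.MP_7cd5ec_co.Cross

/-!
# MP_7cd5ec_co: closures

`N v` is the set of out-neighbours of `v` (`K` of them), `T` a set of vertices. For `S ⊆ T` the
vertices outside `T` are infected one after the other: a vertex is infected if all but fewer than
`g` of its out-neighbours are in `S` or infected.
-/

set_option autoImplicit false

namespace Pool.Agent.Lib.MP_7cd5ec_co

open Finset
open scoped Classical

variable {V : Type} [Fintype V]

/-- the vertices infected after `j` rounds -/
noncomputable def infct (N : V → Finset V) (T : Finset V) (K g : ℕ) (S : Finset V) : ℕ → Finset V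
  | 0 => ∅
  | j + 1 => univ.filter (fun u => u ∉ T ∧ K < (N u ∩ (S ∪ infct N T K g S j)).card + g)

/-- all but fewer than `g` out-neighbours of `v` are in `S` or infected -/
def Dead (N : V → Finset V) (T : Finset V) (K g : ℕ) (S : Finset V) (v : V) : Prop :=
  ∃ j, K < (N v ∩ (S ∪ infct N T K g S j)).card + g

/-- `u ∈ T` is reached from `v` by a path without inner vertices in `T` -/
def Rch (N : V → Finset V) (T : Finset V) (v u : V) : Prop :=
  u ∈ T ∧ ∃ x, Relation.ReflTransGen (fun a b => b ∈ N a ∧ b ∉ T) v x ∧ u ∈ N x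

section

variable {N : V → Finset V} {T : Finset V} {K g : ℕ}

theorem mem_infct_succ {S : Finset V} {j : ℕ} {u : V} :
    u ∈ infct N T K g S (j + 1) ↔ u ∉ T ∧ K < (N u ∩ (S ∪ infct N T K g S j)).card + g := by
  rw [infct, mem_filter]
  simp

theorem infct_notMem {S : Finset V} {j : ℕ} {u : V} (h : u ∈ infct N T K g S j) : u ∉ T := by
  cases j with
  | zero => simp [infct] at h
  | succ j => exact (mem_infct_succ.mp h).1

theorem card_mono {A B C : Finset V} (h : B ⊆ C) (hK : K < (A ∩ B).card + g) :
    K < (A ∩ C).card + g := by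
  have := card_le_card (inter_subset_inter (Subset.refl A) h)
  omega

theorem infct_mono {S S' : Finset V} (h : S ⊆ S') (j : ℕ) :
    infct N T K g S j ⊆ infct N T K g S' j := by
  induction j with
  | zero => simp [infct]
  | succ j ih =>
    intro u hu
    rw [mem_infct_succ] at hu ⊢
    exact ⟨hu.1, card_mono (union_subset_union h ih) hu.2⟩

theorem infct_succ (S : Finset V) (j : ℕ) : infct N T K g S j ⊆ infct N T K g S (j + 1) := by
  induction j with
  | zero => simp [infct]
  | succ j ih =>
    intro u hu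
    rw [mem_infct_succ] at hu ⊢
    exact ⟨hu.1, card_mono (union_subset_union (Subset.refl _) ih) hu.2⟩

theorem infct_le (S : Finset V) {i j : ℕ} (h : i ≤ j) :
    infct N T K g S i ⊆ infct N T K g S j := by
  induction j, h using Nat.le_induction with
  | base => exact Subset.refl _
  | succ j _ ih => exact ih.trans (infct_succ S j)

theorem Dead.mono {S S' : Finset V} (h : S ⊆ S') {v : V} (hd : Dead N T K g S v) :
    Dead N T K g S' v := by
  obtain ⟨j, hj⟩ := hd
  exact ⟨j, card_mono (union_subset_union h (infct_mono h j)) hj⟩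

/-- the common blocked out-neighbours -/
theorem inter_aux (hN : ∀ v, (N v).card = K) {S1 S2 S3 : Finset V} (h1 : S1 ⊆ T) (h2 : S2 ⊆ T)
    (h3 : S3 ⊆ T) (hg : 3 * g < K + 3) : ∀ (j : ℕ) (v : V),
    K < (N v ∩ (S1 ∪ infct N T K g S1 j)).card + g →
    K < (N v ∩ (S2 ∪ infct N T K g S2 j)).card + g →
    K < (N v ∩ (S3 ∪ infct N T K g S3 j)).card + g →
    K + 3 ≤ (S1 ∩ S2 ∩ S3).card + 3 * g := by
  intro j
  induction j with
  | zero =>
    intro v k1 k2 k3
    simp only [infct, union_empty] at k1 k2 k3
    have hcard : K + 3 ≤ (N v ∩ (S1 ∩ S2 ∩ S3)).card + 3 * g := by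
      have e1 := card_sdiff_add_card_inter (N v) S1
      have e2 := card_sdiff_add_card_inter (N v) S2
      have e3 := card_sdiff_add_card_inter (N v) S3
      have e4 := card_sdiff_add_card_inter (N v) (S1 ∩ S2 ∩ S3)
      have e5 : (N v \ (S1 ∩ S2 ∩ S3)).card ≤
          (N v \ S1).card + (N v \ S2).card + (N v \ S3).card := by
        refine (card_le_card (t := (N v \ S1 ∪ N v \ S2) ∪ N v \ S3) ?_).trans
          ((card_union_le _ _).trans (Nat.add_le_add_right (card_union_le _ _) _))
        intro x hx
        simp only [mem_sdiff, mem_inter, mem_union] at hx ⊢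
        tauto
      rw [hN v] at e1 e2 e3 e4
      omega
    have := card_le_card (inter_subset_right (s₁ := N v) (s₂ := S1 ∩ S2 ∩ S3))
    omega
  | succ j ih =>
    intro v k1 k2 k3
    set X1 := S1 ∪ infct N T K g S1 (j + 1) with hX1
    set X2 := S2 ∪ infct N T K g S2 (j + 1) with hX2
    set X3 := S3 ∪ infct N T K g S3 (j + 1) with hX3
    have hcard : K + 3 ≤ (N v ∩ (X1 ∩ X2 ∩ X3)).card + 3 * g := by
      have e1 := card_sdiff_add_card_inter (N v) X1
      have e2 := card_sdiff_add_card_inter (N v) X2
      have e3 := card_sdiff_add_card_inter (N v) X3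
      have e4 := card_sdiff_add_card_inter (N v) (X1 ∩ X2 ∩ X3)
      have e5 : (N v \ (X1 ∩ X2 ∩ X3)).card ≤
          (N v \ X1).card + (N v \ X2).card + (N v \ X3).card := by
        refine (card_le_card (t := (N v \ X1 ∪ N v \ X2) ∪ N v \ X3) ?_).trans
          ((card_union_le _ _).trans (Nat.add_le_add_right (card_union_le _ _) _))
        intro x hx
        simp only [mem_sdiff, mem_inter, mem_union] at hx ⊢
        tauto
      rw [hN v] at e1 e2 e3 e4
      omega
    by_cases hex : ∃ u ∈ N v ∩ (X1 ∩ X2 ∩ X3), u ∉ T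
    · obtain ⟨u, hu, huT⟩ := hex
      simp only [mem_inter, hX1, hX2, hX3, mem_union] at hu
      obtain ⟨-, ⟨u1, u2⟩, u3⟩ := hu
      have c1 := mem_infct_succ.mp (u1.resolve_left fun h => huT (h1 h))
      have c2 := mem_infct_succ.mp (u2.resolve_left fun h => huT (h2 h))
      have c3 := mem_infct_succ.mp (u3.resolve_left fun h => huT (h3 h))
      exact ih u c1.2 c2.2 c3.2
    · push Not at hex
      have hsub : N v ∩ (X1 ∩ X2 ∩ X3) ⊆ S1 ∩ S2 ∩ S3 := by
        intro u hu
        have huT := hex u hu
        simp only [mem_inter, hX1, hX2, hX3, mem_union] at hu ⊢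
        obtain ⟨-, ⟨u1, u2⟩, u3⟩ := hu
        exact ⟨⟨u1.resolve_right fun h => infct_notMem h huT,
          u2.resolve_right fun h => infct_notMem h huT⟩,
          u3.resolve_right fun h => infct_notMem h huT⟩
      have := card_le_card hsub
      omega

theorem Dead.inter (hN : ∀ v, (N v).card = K) (hg : 3 * g < K + 3) {S1 S2 S3 : Finset V}
    (h1 : S1 ⊆ T) (h2 : S2 ⊆ T) (h3 : S3 ⊆ T) {v : V} (d1 : Dead N T K g S1 v)
    (d2 : Dead N T K g S2 v) (d3 : Dead N T K g S3 v) :
    K + 3 ≤ (S1 ∩ S2 ∩ S3).card + 3 * g := by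
  obtain ⟨j1, k1⟩ := d1
  obtain ⟨j2, k2⟩ := d2
  obtain ⟨j3, k3⟩ := d3
  refine inter_aux hN h1 h2 h3 hg (j1 + j2 + j3) v ?_ ?_ ?_
  · exact card_mono (union_subset_union (Subset.refl _) (infct_le _ (by omega))) k1
  · exact card_mono (union_subset_union (Subset.refl _) (infct_le _ (by omega))) k2
  · exact card_mono (union_subset_union (Subset.refl _) (infct_le _ (by omega))) k3

/-- `Dead S v` depends only on the vertices of `T` reached from `v`. -/
theorem loc_aux {S S' : Finset V} (hS : S ⊆ T) (hS' : S' ⊆ T) : ∀ (j : ℕ) (v : V),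
    (∀ u, Rch N T v u → (u ∈ S ↔ u ∈ S')) →
    N v ∩ (S ∪ infct N T K g S j) = N v ∩ (S' ∪ infct N T K g S' j) := by
  intro j
  induction j with
  | zero =>
    intro v h
    ext w
    simp only [infct, union_empty, mem_inter]
    refine and_congr_right fun hw => ?_
    by_cases hwT : w ∈ T
    · exact h w ⟨hwT, v, Relation.ReflTransGen.refl, hw⟩
    · exact ⟨fun h1 => absurd (hS h1) hwT, fun h1 => absurd (hS' h1) hwT⟩
  | succ j ih =>
    intro v h
    ext w
    simp only [mem_inter, mem_union]
    refine and_congr_right fun hw => ?_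
    by_cases hwT : w ∈ T
    · have e := h w ⟨hwT, v, Relation.ReflTransGen.refl, hw⟩
      constructor
      · rintro (h1 | h1)
        · exact Or.inl (e.mp h1)
        · exact absurd hwT (infct_notMem h1)
      · rintro (h1 | h1)
        · exact Or.inl (e.mpr h1)
        · exact absurd hwT (infct_notMem h1)
    · have e := ih w (fun u hu => h u ⟨hu.1, by
        obtain ⟨-, x, hx, hux⟩ := hu
        exact ⟨x, Relation.ReflTransGen.head ⟨hw, hwT⟩ hx, hux⟩⟩)
      have e2 : w ∈ infct N T K g S (j + 1) ↔ w ∈ infct N T K g S' (j + 1) := by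
        rw [mem_infct_succ, mem_infct_succ, e]
      constructor
      · rintro (h1 | h1)
        · exact absurd (hS h1) hwT
        · exact Or.inr (e2.mp h1)
      · rintro (h1 | h1)
        · exact absurd (hS' h1) hwT
        · exact Or.inr (e2.mpr h1)

theorem Dead.loc {S S' : Finset V} (hS : S ⊆ T) (hS' : S' ⊆ T) {v : V}
    (h : ∀ u, Rch N T v u → (u ∈ S ↔ u ∈ S')) : Dead N T K g S v ↔ Dead N T K g S' v := by
  unfold Dead
  refine exists_congr fun j => ?_
  rw [loc_aux hS hS' j v h]

/-- the closure -/
noncomputable def clos (N : V → Finset V) (T : Finset V) (K g : ℕ) (S : Finset V) : Finset V :=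
  univ.filter (fun u => u ∉ T ∧ Dead N T K g S u)

theorem mem_clos {S : Finset V} {u : V} : u ∈ clos N T K g S ↔ u ∉ T ∧ Dead N T K g S u := by
  unfold clos
  rw [mem_filter]
  simp

theorem infct_sub_clos (S : Finset V) (j : ℕ) : infct N T K g S j ⊆ clos N T K g S := by
  cases j with
  | zero => simp [infct]
  | succ j =>
    intro u hu
    rw [mem_infct_succ] at hu
    exact mem_clos.mpr ⟨hu.1, j, hu.2⟩

theorem exists_round (S : Finset V) : ∃ j, clos N T K g S ⊆ infct N T K g S j := by
  have h : ∀ A : Finset V, A ⊆ clos N T K g S → ∃ j, A ⊆ infct N T K g S j := by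
    intro A
    induction A using Finset.induction_on with
    | empty => exact fun _ => ⟨0, empty_subset _⟩
    | insert a A _ ih =>
      intro hA
      obtain ⟨j, hj⟩ := ih ((subset_insert _ _).trans hA)
      obtain ⟨haT, i, hi⟩ := mem_clos.mp (hA (mem_insert_self _ _))
      refine ⟨i + 1 + j, ?_⟩
      intro x hx
      rcases mem_insert.mp hx with rfl | hx
      · exact infct_le S (Nat.le_add_right _ _) (mem_infct_succ.mpr ⟨haT, hi⟩)
      · exact infct_le S (Nat.le_add_left _ _) (hj hx)
  exact h _ (Subset.refl _)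

theorem dead_iff {S : Finset V} {v : V} :
    Dead N T K g S v ↔ K < (N v ∩ (S ∪ clos N T K g S)).card + g := by
  constructor
  · rintro ⟨j, hj⟩
    exact card_mono (union_subset_union (Subset.refl _) (infct_sub_clos S j)) hj
  · intro h
    obtain ⟨j, hj⟩ := exists_round (N := N) (T := T) (K := K) (g := g) S
    exact ⟨j, card_mono (union_subset_union (Subset.refl _) hj) h⟩

end

end Pool.Agent.Lib.MP_7cd5ec_co
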