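import Pool.Agent.Lib.MP_7cd5ec_co.Stage

/-!
# MP_7cd5ec_co: the splitting for digraphs with outdegrees exactly `K`, and the numbers
-/

set_option autoImplicit false

namespace Pool.Agent.Lib.MP_7cd5ec_co

open Finset
open scoped Classical

theorem core {V : Type} [Fintype V] [Nonempty V] {N : V → Finset V} {T : Finset V} {K g : ℕ}
    (hN : ∀ v, (N v).card = K) (hg : 3 * g < K + 3) (M m s t : ℕ) (hM : 1 ≤ M) (hK : 1 ≤ K)
    (hs1 : 1 ≤ s) (ht1 : 1 ≤ t) (hs : s ≤ m) (ht : t ≤ m) (hmK : m + g ≤ K + 1)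
    (hin : ∀ u, u ∉ T → (univ.filter (fun v => u ∈ N v)).card ≤ M)
    (hT : ∀ h ∈ T, (T.filter (fun h' => ∃ u, Rch N T h u ∧ Rch N T h' u)).card ≤ M)
    (hnum1 : 8 * (5 / 8 : ℝ) ^ (K + 3 - 3 * g) * M ≤ 1)
    (hnum2 : 8 * (16 ^ m * (17 / 32 : ℝ) ^ (g - m)) * (K * M) ≤ 1) :
    ∃ A B : Finset V, A.Nonempty ∧ B.Nonempty ∧ Disjoint A B ∧ A ∪ B = univ ∧
      (∀ v ∈ A, s ≤ (N v ∩ A).card) ∧ ∀ v ∈ B, t ≤ (N v ∩ B).card := by
  obtain ⟨S, hST, hS⟩ := stage1 hN hg M hM hT hnum1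
  set A0 : Finset V := (T \ S) ∪ clos N T K g (T \ S) with hA0
  set B0 : Finset V := S ∪ clos N T K g S with hB0
  have memA0 : ∀ x, x ∈ A0 ↔ (x ∈ T ∧ x ∉ S) ∨ (x ∉ T ∧ Dead N T K g (T \ S) x) := by
    intro x
    rw [hA0, mem_union, mem_sdiff, mem_clos]
  have memB0 : ∀ x, x ∈ B0 ↔ x ∈ S ∨ (x ∉ T ∧ Dead N T K g S x) := by
    intro x
    rw [hB0, mem_union, mem_clos]
  have both : ∀ x, ¬ (Dead N T K g (T \ S) x ∧ Dead N T K g S x) := by
    rintro x ⟨d1, d2⟩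
    have h1 := Dead.inter hN hg (sdiff_subset (s := T) (t := S)) hST hST d1 d2 d2
    have h2 : (T \ S) ∩ S ∩ S = ∅ := by
      ext y
      simp only [mem_inter, mem_sdiff, notMem_empty, iff_false]
      tauto
    rw [h2, card_empty] at h1
    omega
  have hdis : ∀ x, ¬ (x ∈ A0 ∧ x ∈ B0) := by
    rintro x ⟨h1, h2⟩
    rw [memA0] at h1
    rw [memB0] at h2
    rcases h1 with ⟨h1, h1'⟩ | ⟨h1, h1'⟩
    · rcases h2 with h2 | ⟨h2, -⟩
      · exact h1' h2
      · exact h2 h1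
    · rcases h2 with h2 | ⟨-, h2⟩
      · exact h1 (hST h2)
      · exact both x ⟨h1', h2⟩
  set U : Finset V := univ \ (A0 ∪ B0) with hU
  have memU : ∀ x, x ∈ U ↔ x ∉ A0 ∧ x ∉ B0 := by
    intro x
    rw [hU, mem_sdiff, mem_union]
    simp
  have hUT : ∀ u ∈ U, u ∉ T := by
    intro u hu huT
    rw [memU, memA0, memB0] at hu
    by_cases h : u ∈ S
    · exact hu.2 (Or.inl h)
    · exact hu.1 (Or.inl ⟨huT, h⟩)
  obtain ⟨S', hS'U, hS'⟩ := stage2 (g := g) hN U M m s t hM hK hs ht (fun u hu => hin u (hUT u hu))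
    hnum2
  have sum3 : ∀ v, (N v ∩ A0).card + (N v ∩ B0).card + (N v ∩ U).card = K := by
    intro v
    rw [← hN v, ← card_union_of_disjoint, ← card_union_of_disjoint]
    · congr 1
      ext x
      simp only [mem_union, mem_inter, memU]
      tauto
    · rw [disjoint_left]
      intro x h1 h2
      simp only [mem_union, mem_inter, memU] at h1 h2
      tauto
    · rw [disjoint_left]
      intro x h1 h2
      rw [mem_inter] at h1 h2
      exact hdis x ⟨h1.2, h2.2⟩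
  have neut : ∀ v, ¬ Dead N T K g S v → ¬ Dead N T K g (T \ S) v →
      s ≤ (N v ∩ (A0 ∪ S')).card ∧ t ≤ (N v ∩ (B0 ∪ (U \ S'))).card := by
    intro v h1 h2
    rw [dead_iff, ← hB0, not_lt] at h1
    rw [dead_iff, ← hA0, not_lt] at h2
    have h3 := sum3 v
    have mA : (N v ∩ A0).card ≤ (N v ∩ (A0 ∪ S')).card :=
      card_le_card (inter_subset_inter (Subset.refl _) subset_union_left)
    have mB : (N v ∩ B0).card ≤ (N v ∩ (B0 ∪ (U \ S'))).card :=
      card_le_card (inter_subset_inter (Subset.refl _) subset_union_left)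
    have mA' : (N v ∩ S').card ≤ (N v ∩ (A0 ∪ S')).card :=
      card_le_card (inter_subset_inter (Subset.refl _) subset_union_right)
    have mB' : (N v ∩ (U \ S')).card ≤ (N v ∩ (B0 ∪ (U \ S'))).card :=
      card_le_card (inter_subset_inter (Subset.refl _) subset_union_right)
    by_cases hc : g ≤ (N v ∩ U).card + m
    · obtain ⟨h4, h5⟩ := hS' v hc
      omega
    · omega
  have hneut : ∃ v, ¬ Dead N T K g S v ∧ ¬ Dead N T K g (T \ S) v := by
    rcases T.eq_empty_or_nonempty with hT0 | ⟨h, hh⟩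
    · obtain ⟨v⟩ := (inferInstance : Nonempty V)
      have hd : ∀ R : Finset V, R ⊆ T → ¬ Dead N T K g R v := by
        intro R hR hd
        have h1 := Dead.inter hN hg hR hR hR hd hd hd
        have h2 : R = ∅ := subset_empty.mp (hT0 ▸ hR)
        rw [h2] at h1
        simp only [inter_self, card_empty] at h1
        omega
      exact ⟨v, hd S hST, hd _ sdiff_subset⟩
    · exact ⟨h, hS h hh⟩
  refine ⟨A0 ∪ S', B0 ∪ (U \ S'), ?_, ?_, ?_, ?_, ?_, ?_⟩
  · obtain ⟨v, h1, h2⟩ := hneut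
    have h3 := (neut v h1 h2).1
    have h4 : (N v ∩ (A0 ∪ S')).Nonempty := card_pos.mp (by omega)
    exact h4.mono inter_subset_right
  · obtain ⟨v, h1, h2⟩ := hneut
    have h3 := (neut v h1 h2).2
    have h4 : (N v ∩ (B0 ∪ (U \ S'))).Nonempty := card_pos.mp (by omega)
    exact h4.mono inter_subset_right
  · rw [disjoint_left]
    intro x h1 h2
    rw [mem_union] at h1 h2
    rcases h1 with h1 | h1
    · rcases h2 with h2 | h2
      · exact hdis x ⟨h1, h2⟩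
      · exact ((memU x).mp (mem_sdiff.mp h2).1).1 h1
    · rcases h2 with h2 | h2
      · exact ((memU x).mp (hS'U h1)).2 h2
      · exact (mem_sdiff.mp h2).2 h1
  · ext x
    simp only [mem_union, mem_sdiff, memU, mem_univ, iff_true]
    tauto
  · intro v hv
    rw [mem_union] at hv
    rcases hv with hv | hv
    · rw [memA0] at hv
      rcases hv with ⟨hv, -⟩ | ⟨-, hv⟩
      · exact (neut v (hS v hv).1 (hS v hv).2).1
      · rw [dead_iff, ← hA0] at hv
        have mA : (N v ∩ A0).card ≤ (N v ∩ (A0 ∪ S')).card :=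
          card_le_card (inter_subset_inter (Subset.refl _) subset_union_left)
        omega
    · have h1 := hS'U hv
      have h2 := hUT v h1
      rw [memU, memA0, memB0] at h1
      exact (neut v (fun h => h1.2 (Or.inr ⟨h2, h⟩)) (fun h => h1.1 (Or.inr ⟨h2, h⟩))).1
  · intro v hv
    rw [mem_union] at hv
    rcases hv with hv | hv
    · rw [memB0] at hv
      rcases hv with hv | ⟨-, hv⟩
      · exact (neut v (hS v (hST hv)).1 (hS v (hST hv)).2).2
      · rw [dead_iff, ← hB0] at hv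
        have mB : (N v ∩ B0).card ≤ (N v ∩ (B0 ∪ (U \ S'))).card :=
          card_le_card (inter_subset_inter (Subset.refl _) subset_union_left)
        omega
    · have h1 := (mem_sdiff.mp hv).1
      have h2 := hUT v h1
      rw [memU, memA0, memB0] at h1
      exact (neut v (fun h => h1.2 (Or.inr ⟨h2, h⟩)) (fun h => h1.1 (Or.inr ⟨h2, h⟩))).2

/-- `u ∈ T` is reached from `v` by a path without inner vertices in `T` -/
def RE {α : Type} (E : α → α → Prop) (T : Finset α) (v u : α) : Prop :=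
  u ∈ T ∧ ∃ x, Relation.ReflTransGen (fun a b => E a b ∧ b ∉ T) v x ∧ E x u

/-- a common vertex is reached -/
def Lk {α : Type} (E : α → α → Prop) (T : Finset α) (h h' : α) : Prop :=
  ∃ u, RE E T h u ∧ RE E T h' u

/-- The version for a relation with outdegrees at least `K`. -/
theorem core2 {α : Type} [Fintype α] [Nonempty α] (E : α → α → Prop) (T : Finset α) {K g : ℕ}
    (hg : 3 * g < K + 3) (M m s t : ℕ) (hM : 1 ≤ M) (hK : 1 ≤ K)
    (hs1 : 1 ≤ s) (ht1 : 1 ≤ t) (hs : s ≤ m) (ht : t ≤ m) (hmK : m + g ≤ K + 1)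
    (hout : ∀ v, K ≤ (univ.filter (fun u => E v u)).card)
    (hin : ∀ u, u ∉ T → (univ.filter (fun v => E v u)).card ≤ M)
    (hT : ∀ h ∈ T, (T.filter (fun h' => Lk E T h h')).card ≤ M)
    (hnum1 : 8 * (5 / 8 : ℝ) ^ (K + 3 - 3 * g) * M ≤ 1)
    (hnum2 : 8 * (16 ^ m * (17 / 32 : ℝ) ^ (g - m)) * (K * M) ≤ 1) :
    ∃ A B : Finset α, A.Nonempty ∧ B.Nonempty ∧ Disjoint A B ∧
      (∀ v ∈ A, s ≤ (A.filter (fun u => E v u)).card) ∧
      ∀ v ∈ B, t ≤ (B.filter (fun u => E v u)).card := by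
  have hex : ∀ v : α, ∃ R : Finset α, (∀ u ∈ R, E v u) ∧ R.card = K := by
    intro v
    obtain ⟨R, hR1, hR2⟩ := exists_subset_card_eq (hout v)
    exact ⟨R, fun u hu => (mem_filter.mp (hR1 hu)).2, hR2⟩
  choose N hNE hNK using hex
  have hreach : ∀ h u : α, Rch N T h u → RE E T h u := by
    rintro h u ⟨h1, x, hx, hxu⟩
    refine ⟨h1, x, ?_, hNE x u hxu⟩
    exact Relation.ReflTransGen.mono (p := fun a b => E a b ∧ b ∉ T)
      (fun a b hab => ⟨hNE a b hab.1, hab.2⟩) _ _ hx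
  obtain ⟨A, B, hA, hB, hAB, -, h1, h2⟩ := core hNK hg M m s t hM hK hs1 ht1 hs ht hmK
    (fun u hu => (card_le_card fun v hv => by
      rw [mem_filter] at hv ⊢
      exact ⟨hv.1, hNE v u hv.2⟩).trans (hin u hu))
    (fun h hh => (card_le_card fun v hv => by
      rw [mem_filter] at hv ⊢
      obtain ⟨hv1, u, hu1, hu2⟩ := hv
      exact ⟨hv1, u, hreach _ _ hu1, hreach _ _ hu2⟩).trans (hT h hh)) hnum1 hnum2
  refine ⟨A, B, hA, hB, hAB, fun v hv => (h1 v hv).trans (card_le_card fun u hu => ?_),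
    fun v hv => (h2 v hv).trans (card_le_card fun u hu => ?_)⟩
  · rw [mem_inter] at hu
    exact mem_filter.mpr ⟨hu.2, hNE v u hu.1⟩
  · rw [mem_inter] at hu
    exact mem_filter.mpr ⟨hu.2, hNE v u hu.1⟩

/-! ### the numbers -/

theorem num1 {K : ℕ} (hK : 64 ≤ K) :
    8 * (5 / 8 : ℝ) ^ (K + 3 - 3 * (K / 4)) * ((2 ^ (K / 8) : ℕ) : ℝ) ≤ 1 := by
  set q := K / 8 with hq
  have h1 : 2 * q + 3 ≤ K + 3 - 3 * (K / 4) := by omega
  have h2 : (5 / 8 : ℝ) ^ (K + 3 - 3 * (K / 4)) ≤ (5 / 8) ^ (2 * q + 3) :=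
    pow_le_pow_of_le_one (by norm_num) (by norm_num) h1
  have h3 : 3 ≤ q := by omega
  have h4 : (25 / 32 : ℝ) ^ q ≤ (25 / 32) ^ 3 :=
    pow_le_pow_of_le_one (by norm_num) (by norm_num) h3
  push_cast
  calc 8 * (5 / 8 : ℝ) ^ (K + 3 - 3 * (K / 4)) * 2 ^ q ≤ 8 * (5 / 8) ^ (2 * q + 3) * 2 ^ q := by
        gcongr
    _ = 125 / 64 * (25 / 32 : ℝ) ^ q := by
        rw [pow_add, pow_mul, show (25 / 32 : ℝ) = (5 / 8) ^ 2 * 2 by norm_num, mul_pow]
        ring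
    _ ≤ 125 / 64 * (25 / 32) ^ 3 := by gcongr
    _ ≤ 1 := by norm_num

theorem num_lin (q : ℕ) (hq : 24 ≤ q) : (8 : ℝ) * (8 * q + 7) ≤ (3 / 2) ^ q := by
  induction q, hq using Nat.le_induction with
  | base => norm_num
  | succ q hq ih =>
    have h : (24 : ℝ) ≤ q := by exact_mod_cast hq
    rw [pow_succ]
    push_cast
    linarith

theorem num2 {K m : ℕ} (hm : 1 ≤ m) (hK : 256 * m ≤ K) :
    8 * (16 ^ m * (17 / 32 : ℝ) ^ (K / 4 - m)) * (K * ((2 ^ (K / 8) : ℕ) : ℝ)) ≤ 1 := by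
  set q := K / 8 with hq
  have hqm : 32 * m ≤ q := by omega
  have hq24 : 24 ≤ q := by omega
  have h1 : 2 * q - m ≤ K / 4 - m := by omega
  have h2 : (17 / 32 : ℝ) ^ (K / 4 - m) ≤ (17 / 32) ^ (2 * q - m) :=
    pow_le_pow_of_le_one (by norm_num) (by norm_num) h1
  have h3 : (K : ℝ) ≤ 8 * q + 7 := by
    have : K ≤ 8 * q + 7 := by omega
    exact_mod_cast this
  have h4 : (16 : ℝ) ^ m * (17 / 32) ^ (2 * q - m) ≤ 32 ^ m * (17 / 32) ^ (2 * q) := by
    have e : (17 / 32 : ℝ) ^ (2 * q) = (17 / 32) ^ (2 * q - m) * (17 / 32) ^ m := by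
      rw [← pow_add]
      congr 1
      omega
    rw [e]
    have e2 : (32 : ℝ) ^ m * ((17 / 32) ^ (2 * q - m) * (17 / 32) ^ m) =
        17 ^ m * (17 / 32) ^ (2 * q - m) := by
      rw [mul_comm ((17 / 32 : ℝ) ^ (2 * q - m)), ← mul_assoc, ← mul_pow]
      norm_num
    rw [e2]
    gcongr
    norm_num
  have h5 : (32 : ℝ) ^ m ≤ (9 / 8) ^ q := by
    calc (32 : ℝ) ^ m ≤ ((9 / 8) ^ 32) ^ m := by
          gcongr
          norm_num
      _ = (9 / 8) ^ (32 * m) := by rw [pow_mul]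
      _ ≤ (9 / 8) ^ q := pow_le_pow_right₀ (by norm_num) hqm
  have h6 := num_lin q hq24
  push_cast
  calc 8 * (16 ^ m * (17 / 32 : ℝ) ^ (K / 4 - m)) * (K * 2 ^ q)
      ≤ 8 * (16 ^ m * (17 / 32 : ℝ) ^ (2 * q - m)) * ((8 * q + 7) * 2 ^ q) := by gcongr
    _ ≤ 8 * (32 ^ m * (17 / 32 : ℝ) ^ (2 * q)) * ((8 * q + 7) * 2 ^ q) := by gcongr
    _ ≤ 8 * ((9 / 8) ^ q * (17 / 32 : ℝ) ^ (2 * q)) * ((8 * q + 7) * 2 ^ q) := by gcongr
    _ = (8 * (8 * q + 7)) * ((9 / 8) ^ q * ((17 / 32) ^ 2) ^ q * 2 ^ q) := by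
        rw [pow_mul]
        ring
    _ ≤ (3 / 2) ^ q * ((9 / 8) ^ q * ((17 / 32) ^ 2) ^ q * 2 ^ q) := by gcongr
    _ = (3 / 2 * (9 / 8 * (17 / 32) ^ 2 * 2)) ^ q := by
        rw [← mul_pow, ← mul_pow, ← mul_pow]
    _ ≤ 1 := pow_le_one₀ (by norm_num) (by norm_num)

end Pool.Agent.Lib.MP_7cd5ec_co
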