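import Mathlib

/-!
# MP_7cd5ec_co: three-wise intersecting families

`cnt T F` is the number of the subsets of `T` in the family `F`. If three monotone families are
such that any three members have at least `l` common elements, then the product of their
densities is at most `(5/8)^(3l)`.
-/

set_option autoImplicit false

namespace Pool.Agent.Lib.MP_7cd5ec_co

open Finset
open scoped Classical

variable {V : Type}

/-- the subsets of `T` satisfying `F` -/
noncomputable def fam (T : Finset V) (F : Finset V → Prop) : Finset (Finset V) :=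
  T.powerset.filter F

theorem mem_fam {T : Finset V} {F : Finset V → Prop} {S : Finset V} :
    S ∈ fam T F ↔ S ⊆ T ∧ F S := by
  unfold fam
  rw [mem_filter, mem_powerset]

/-- number of the subsets of `T` satisfying `F` -/
noncomputable def cnt (T : Finset V) (F : Finset V → Prop) : ℕ := (fam T F).card

theorem cnt_le (T : Finset V) (F : Finset V → Prop) : cnt T F ≤ 2 ^ T.card := by
  rw [← card_powerset]
  exact card_le_card fun S hS => mem_powerset.mpr (mem_fam.mp hS).1

theorem cnt_mono {T : Finset V} {F G : Finset V → Prop} (h : ∀ S, S ⊆ T → F S → G S) :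
    cnt T F ≤ cnt T G := by
  refine card_le_card fun S hS => ?_
  rw [mem_fam] at hS ⊢
  exact ⟨hS.1, h S hS.1 hS.2⟩

theorem cnt_congr {T : Finset V} {F G : Finset V → Prop} (h : ∀ S, S ⊆ T → (F S ↔ G S)) :
    cnt T F = cnt T G :=
  le_antisymm (cnt_mono fun S hS => (h S hS).1) (cnt_mono fun S hS => (h S hS).2)

theorem cnt_or (T : Finset V) (F G : Finset V → Prop) :
    cnt T (fun S => F S ∨ G S) ≤ cnt T F + cnt T G := by
  refine (card_le_card fun S hS => ?_).trans (card_union_le _ _)
  rw [mem_fam] at hS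
  rw [mem_union, mem_fam, mem_fam]
  exact hS.2.imp (fun h => ⟨hS.1, h⟩) fun h => ⟨hS.1, h⟩

theorem cnt_true (T : Finset V) : cnt T (fun _ => True) = 2 ^ T.card := by
  rw [← card_powerset]
  unfold cnt
  congr 1
  ext S
  rw [mem_fam, mem_powerset]
  simp

theorem cnt_insert {T : Finset V} {a : V} (ha : a ∉ T) (F : Finset V → Prop) :
    cnt (insert a T) F = cnt T F + cnt T (fun S => F (insert a S)) := by
  unfold cnt
  have h1 : fam (insert a T) F =
      (fam T F) ∪ ((fam T (fun S => F (insert a S))).image (insert a)) := by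
    ext S
    simp only [mem_fam, mem_union, mem_image]
    constructor
    · rintro ⟨h1, h2⟩
      by_cases h3 : a ∈ S
      · right
        refine ⟨S.erase a, ⟨?_, ?_⟩, insert_erase h3⟩
        · intro x hx
          rw [mem_erase] at hx
          exact (mem_insert.mp (h1 hx.2)).resolve_left hx.1
        · rw [insert_erase h3]
          exact h2
      · left
        refine ⟨fun x hx => ?_, h2⟩
        refine (mem_insert.mp (h1 hx)).resolve_left ?_
        rintro rfl
        exact h3 hx
    · rintro (⟨h1, h2⟩ | ⟨S', ⟨h1, h2⟩, rfl⟩)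
      · exact ⟨h1.trans (subset_insert _ _), h2⟩
      · exact ⟨insert_subset_insert _ h1, h2⟩
  rw [h1, card_union_of_disjoint, card_image_of_injOn]
  · intro S1 hS1 S2 hS2 h
    have e1 : a ∉ S1 := fun h => ha ((mem_fam.mp (mem_coe.mp hS1)).1 h)
    have e2 : a ∉ S2 := fun h => ha ((mem_fam.mp (mem_coe.mp hS2)).1 h)
    have h' : insert a S1 = insert a S2 := h
    rw [← erase_insert e1, ← erase_insert e2, h']
  · rw [disjoint_left]
    intro S h2 h3
    obtain ⟨S', -, rfl⟩ := mem_image.mp h3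
    exact ha ((mem_fam.mp h2).1 (mem_insert_self _ _))

theorem real_aux {a1 a2 a3 b1 b2 b3 Q : ℝ} (h1 : 0 ≤ b1) (h2 : 0 ≤ b2) (h3 : 0 ≤ b3)
    (k1 : b1 ≤ a1) (k2 : b2 ≤ a2) (k3 : b3 ≤ a3) (hQ : 0 ≤ Q)
    (hP : a1 * a2 * a3 * (5 / 8) ^ 3 ≤ Q) (m1 : b1 * a2 * a3 ≤ Q) (m2 : a1 * b2 * a3 ≤ Q)
    (m3 : a1 * a2 * b3 ≤ Q) : (a1 + b1) * (a2 + b2) * (a3 + b3) ≤ 8 * Q := by
  have ha1 : 0 ≤ a1 := h1.trans k1
  have ha2 : 0 ≤ a2 := h2.trans k2
  have ha3 : 0 ≤ a3 := h3.trans k3
  by_cases hc : a1 * a2 * a3 ≤ Q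
  · have e : (a1 + b1) * (a2 + b2) * (a3 + b3) ≤ (a1 + a1) * (a2 + a2) * (a3 + a3) := by
      gcongr
    nlinarith
  · push Not at hc
    have hpos : 0 < a1 * a2 * a3 := lt_of_le_of_lt hQ hc
    have p1 : 0 < a1 := lt_of_le_of_ne ha1 (by rintro rfl; simp at hpos)
    have p2 : 0 < a2 := lt_of_le_of_ne ha2 (by rintro rfl; simp at hpos)
    have p3 : 0 < a3 := lt_of_le_of_ne ha3 (by rintro rfl; simp at hpos)
    set y : ℝ := Q / (a1 * a2 * a3) with hy
    have hyP : y * (a1 * a2 * a3) = Q := div_mul_cancel₀ _ hpos.ne'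
    have hy1 : y ≤ 1 := by
      rw [hy, div_le_one hpos]
      exact hc.le
    have hy2 : (5 / 8 : ℝ) ^ 3 ≤ y := by
      rw [hy, le_div_iff₀ hpos]
      linarith
    have hb1 : b1 ≤ y * a1 := by
      have : b1 * (a2 * a3) ≤ y * a1 * (a2 * a3) := by
        calc b1 * (a2 * a3) = b1 * a2 * a3 := by ring
          _ ≤ Q := m1
          _ = y * a1 * (a2 * a3) := by rw [← hyP]; ring
      exact le_of_mul_le_mul_right this (mul_pos p2 p3)
    have hb2 : b2 ≤ y * a2 := by
      have : b2 * (a1 * a3) ≤ y * a2 * (a1 * a3) := by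
        calc b2 * (a1 * a3) = a1 * b2 * a3 := by ring
          _ ≤ Q := m2
          _ = y * a2 * (a1 * a3) := by rw [← hyP]; ring
      exact le_of_mul_le_mul_right this (mul_pos p1 p3)
    have hb3 : b3 ≤ y * a3 := by
      have : b3 * (a1 * a2) ≤ y * a3 * (a1 * a2) := by
        calc b3 * (a1 * a2) = a1 * a2 * b3 := by ring
          _ ≤ Q := m3
          _ = y * a3 * (a1 * a2) := by rw [← hyP]; ring
      exact le_of_mul_le_mul_right this (mul_pos p1 p2)
    have hy0 : 0 ≤ y := le_trans (by positivity) hy2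
    have e : (a1 + b1) * (a2 + b2) * (a3 + b3) ≤
        (a1 + y * a1) * (a2 + y * a2) * (a3 + y * a3) := by
      gcongr
    have e2 : (1 + y) ^ 3 ≤ 8 * y := by
      nlinarith [mul_nonneg (sub_nonneg.mpr hy1) (sub_nonneg.mpr hy2)]
    calc (a1 + b1) * (a2 + b2) * (a3 + b3) ≤ (a1 + y * a1) * (a2 + y * a2) * (a3 + y * a3) := e
      _ = (1 + y) ^ 3 * (a1 * a2 * a3) := by ring
      _ ≤ (8 * y) * (a1 * a2 * a3) := mul_le_mul_of_nonneg_right e2 hpos.le
      _ = 8 * Q := by rw [← hyP]; ring

/-- Three cross intersecting monotone families. -/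
theorem cross (T : Finset V) : ∀ (l : ℕ) (F1 F2 F3 : Finset V → Prop),
    (∀ S S', S ⊆ S' → F1 S → F1 S') → (∀ S S', S ⊆ S' → F2 S → F2 S') →
    (∀ S S', S ⊆ S' → F3 S → F3 S') →
    (∀ S1 S2 S3, S1 ⊆ T → S2 ⊆ T → S3 ⊆ T → F1 S1 → F2 S2 → F3 S3 →
      l ≤ (S1 ∩ S2 ∩ S3).card) →
    (cnt T F1 : ℝ) * cnt T F2 * cnt T F3 ≤ (5 / 8) ^ (3 * l) * (2 ^ T.card) ^ 3 := by
  induction T using Finset.induction_on with
  | empty =>
    intro l F1 F2 F3 _ _ _ h
    have c : ∀ F : Finset V → Prop, (cnt ∅ F : ℝ) = if F ∅ then 1 else 0 := by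
      intro F
      unfold cnt fam
      rw [powerset_empty, filter_singleton]
      split_ifs <;> simp
    rw [c, c, c]
    by_cases h1 : F1 ∅ ∧ F2 ∅ ∧ F3 ∅
    · have h2 := h ∅ ∅ ∅ (Subset.refl _) (Subset.refl _) (Subset.refl _) h1.1 h1.2.1 h1.2.2
      have h3 : l = 0 := by simpa using h2
      simp [h1.1, h1.2.1, h1.2.2, h3]
    · have : (if F1 ∅ then (1 : ℝ) else 0) * (if F2 ∅ then 1 else 0) * (if F3 ∅ then 1 else 0) =
          0 := by
        by_cases k1 : F1 ∅
        · by_cases k2 : F2 ∅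
          · by_cases k3 : F3 ∅
            · exact absurd ⟨k1, k2, k3⟩ h1
            · simp [k3]
          · simp [k2]
        · simp [k1]
      rw [this]
      positivity
  | insert a T ha ih =>
    intro l F1 F2 F3 m1 m2 m3 h
    rcases Nat.eq_zero_or_pos l with hl | hl
    · subst hl
      have c : ∀ F : Finset V → Prop, (cnt (insert a T) F : ℝ) ≤ 2 ^ (insert a T).card :=
        fun F => by exact_mod_cast cnt_le _ F
      have c0 : ∀ F : Finset V → Prop, (0 : ℝ) ≤ cnt (insert a T) F := fun F => Nat.cast_nonneg _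
      calc (cnt (insert a T) F1 : ℝ) * cnt (insert a T) F2 * cnt (insert a T) F3 ≤
          2 ^ (insert a T).card * 2 ^ (insert a T).card * 2 ^ (insert a T).card := by
            gcongr
            · exact c F1
            · exact c F2
            · exact c F3
        _ = (5 / 8) ^ (3 * 0) * (2 ^ (insert a T).card) ^ 3 := by ring
    · obtain ⟨l', rfl⟩ : ∃ l', l = l' + 1 := ⟨l - 1, by omega⟩
      have sh : ∀ F : Finset V → Prop, (∀ S S', S ⊆ S' → F S → F S') →
          ∀ S S', S ⊆ S' → F (insert a S) → F (insert a S') :=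
        fun F hF S S' hS => hF _ _ (insert_subset_insert _ hS)
      have bm : ∀ F : Finset V → Prop, (∀ S S', S ⊆ S' → F S → F S') →
          (cnt T F : ℝ) ≤ cnt T (fun S => F (insert a S)) := by
        intro F hF
        exact_mod_cast cnt_mono fun S _ hS => hF _ _ (subset_insert _ _) hS
      have i0 := ih l' (fun S => F1 (insert a S)) (fun S => F2 (insert a S))
        (fun S => F3 (insert a S)) (sh F1 m1) (sh F2 m2) (sh F3 m3) (by
          intro S1 S2 S3 h1 h2 h3 k1 k2 k3
          have h4 := h (insert a S1) (insert a S2) (insert a S3) (insert_subset_insert _ h1)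
            (insert_subset_insert _ h2) (insert_subset_insert _ h3) k1 k2 k3
          rw [← insert_inter_distrib, ← insert_inter_distrib] at h4
          have h5 := card_insert_le a (S1 ∩ S2 ∩ S3)
          omega)
      have i1 := ih (l' + 1) F1 (fun S => F2 (insert a S)) (fun S => F3 (insert a S)) m1 (sh F2 m2)
        (sh F3 m3) (by
          intro S1 S2 S3 h1 h2 h3 k1 k2 k3
          have h4 := h S1 (insert a S2) (insert a S3) (h1.trans (subset_insert _ _))
            (insert_subset_insert _ h2) (insert_subset_insert _ h3) k1 k2 k3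
          refine h4.trans (card_le_card fun x hx => ?_)
          simp only [mem_inter, mem_insert] at hx ⊢
          have hxa : x ≠ a := by
            rintro rfl
            exact ha (h1 hx.1.1)
          exact ⟨⟨hx.1.1, hx.1.2.resolve_left hxa⟩, hx.2.resolve_left hxa⟩)
      have i2 := ih (l' + 1) (fun S => F1 (insert a S)) F2 (fun S => F3 (insert a S)) (sh F1 m1) m2
        (sh F3 m3) (by
          intro S1 S2 S3 h1 h2 h3 k1 k2 k3
          have h4 := h (insert a S1) S2 (insert a S3) (insert_subset_insert _ h1)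
            (h2.trans (subset_insert _ _)) (insert_subset_insert _ h3) k1 k2 k3
          refine h4.trans (card_le_card fun x hx => ?_)
          simp only [mem_inter, mem_insert] at hx ⊢
          have hxa : x ≠ a := by
            rintro rfl
            exact ha (h2 hx.1.2)
          exact ⟨⟨hx.1.1.resolve_left hxa, hx.1.2⟩, hx.2.resolve_left hxa⟩)
      have i3 := ih (l' + 1) (fun S => F1 (insert a S)) (fun S => F2 (insert a S)) F3 (sh F1 m1)
        (sh F2 m2) m3 (by
          intro S1 S2 S3 h1 h2 h3 k1 k2 k3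
          have h4 := h (insert a S1) (insert a S2) S3 (insert_subset_insert _ h1)
            (insert_subset_insert _ h2) (h3.trans (subset_insert _ _)) k1 k2 k3
          refine h4.trans (card_le_card fun x hx => ?_)
          simp only [mem_inter, mem_insert] at hx ⊢
          have hxa : x ≠ a := by
            rintro rfl
            exact ha (h3 hx.2)
          exact ⟨⟨hx.1.1.resolve_left hxa, hx.1.2.resolve_left hxa⟩, hx.2⟩)
      have key := real_aux (Q := (5 / 8) ^ (3 * (l' + 1)) * (2 ^ T.card) ^ 3)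
        (Nat.cast_nonneg (cnt T F1)) (Nat.cast_nonneg (cnt T F2)) (Nat.cast_nonneg (cnt T F3))
        (bm F1 m1) (bm F2 m2) (bm F3 m3) (by positivity) (by
          refine (mul_le_mul_of_nonneg_right i0 (by positivity)).trans (le_of_eq ?_)
          ring) i1 i2 i3
      rw [cnt_insert ha, cnt_insert ha, cnt_insert ha, card_insert_of_notMem ha]
      push_cast
      rw [add_comm (cnt T F1 : ℝ), add_comm (cnt T F2 : ℝ), add_comm (cnt T F3 : ℝ)]
      refine key.trans (le_of_eq ?_)
      ring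

/-- A monotone three-wise intersecting family has small density. -/
theorem cnt_three (T : Finset V) (l : ℕ) (F : Finset V → Prop)
    (m : ∀ S S', S ⊆ S' → F S → F S')
    (h : ∀ S1 S2 S3, S1 ⊆ T → S2 ⊆ T → S3 ⊆ T → F S1 → F S2 → F S3 →
      l ≤ (S1 ∩ S2 ∩ S3).card) :
    (cnt T F : ℝ) ≤ (5 / 8) ^ l * 2 ^ T.card := by
  have h1 := cross T l F F F m m m h
  have h2 : (cnt T F : ℝ) ^ 3 ≤ ((5 / 8) ^ l * 2 ^ T.card) ^ 3 := by
    calc (cnt T F : ℝ) ^ 3 = (cnt T F : ℝ) * cnt T F * cnt T F := by ring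
      _ ≤ _ := h1
      _ = ((5 / 8) ^ l * 2 ^ T.card) ^ 3 := by rw [mul_pow, ← pow_mul (5 / 8 : ℝ) l 3, mul_comm l 3]
  exact le_of_pow_le_pow_left₀ (by norm_num) (by positivity) h2

/-- Splitting the coordinates. -/
theorem cnt_prod {T P : Finset V} (hP : P ⊆ T) (E G : Finset V → Prop)
    (hE : ∀ S, S ⊆ T → (E S ↔ E (S ∩ P))) (hG : ∀ S, S ⊆ T → (G S ↔ G (S \ P))) :
    cnt T (fun S => E S ∧ G S) = cnt P E * cnt (T \ P) G := by
  unfold cnt
  rw [← card_product]
  refine card_nbij' (fun S => (S ∩ P, S \ P)) (fun q => q.1 ∪ q.2) ?_ ?_ ?_ ?_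
  · intro S hS
    rw [mem_coe, mem_fam] at hS
    rw [mem_coe, mem_product, mem_fam, mem_fam]
    exact ⟨⟨inter_subset_right, (hE S hS.1).mp hS.2.1⟩, sdiff_subset_sdiff hS.1 (Subset.refl _),
      (hG S hS.1).mp hS.2.2⟩
  · rintro ⟨S1, S2⟩ hS
    rw [mem_coe, mem_product, mem_fam, mem_fam] at hS
    obtain ⟨⟨h1, h2⟩, h3, h4⟩ := hS
    have hsub : S1 ∪ S2 ⊆ T := union_subset (h1.trans hP) (h3.trans sdiff_subset)
    have e1 : (S1 ∪ S2) ∩ P = S1 := by
      ext x
      simp only [mem_inter, mem_union]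
      constructor
      · rintro ⟨h | h, hx⟩
        · exact h
        · exact absurd hx (mem_sdiff.mp (h3 h)).2
      · intro h
        exact ⟨Or.inl h, h1 h⟩
    have e2 : (S1 ∪ S2) \ P = S2 := by
      ext x
      simp only [mem_sdiff, mem_union]
      constructor
      · rintro ⟨h | h, hx⟩
        · exact absurd (h1 h) hx
        · exact h
      · intro h
        exact ⟨Or.inr h, (mem_sdiff.mp (h3 h)).2⟩
    rw [mem_coe, mem_fam]
    refine ⟨hsub, ?_, ?_⟩
    · rw [hE _ hsub, e1]
      exact h2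
    · rw [hG _ hsub, e2]
      exact h4
  · intro S hS
    ext x
    simp only [mem_union, mem_inter, mem_sdiff]
    tauto
  · rintro ⟨S1, S2⟩ hS
    rw [mem_coe, mem_product, mem_fam, mem_fam] at hS
    obtain ⟨⟨h1, h2⟩, h3, h4⟩ := hS
    refine Prod.ext ?_ ?_
    · ext x
      simp only [mem_inter, mem_union]
      constructor
      · rintro ⟨h | h, hx⟩
        · exact h
        · exact absurd hx (mem_sdiff.mp (h3 h)).2
      · intro h
        exact ⟨Or.inl h, h1 h⟩
    · ext x
      simp only [mem_sdiff, mem_union]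
      constructor
      · rintro ⟨h | h, hx⟩
        · exact absurd (h1 h) hx
        · exact h
      · intro h
        exact ⟨Or.inr h, (mem_sdiff.mp (h3 h)).2⟩

/-- Independence, in the form needed for the local lemma. -/
theorem cnt_indep {T P : Finset V} (hP : P ⊆ T) (E G : Finset V → Prop)
    (hE : ∀ S, S ⊆ T → (E S ↔ E (S ∩ P))) (hG : ∀ S, S ⊆ T → (G S ↔ G (S \ P))) (p : ℝ)
    (hp : (cnt P E : ℝ) ≤ p * 2 ^ P.card) :
    (cnt T (fun S => E S ∧ G S) : ℝ) ≤ p * cnt T G := by
  have h1 := cnt_prod hP E G hE hG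
  have h2 := cnt_prod hP (fun _ => True) G (fun _ _ => Iff.rfl) hG
  rw [cnt_true] at h2
  have h3 : cnt T G = cnt T (fun S => True ∧ G S) := cnt_congr fun S _ => by simp
  rw [h1, h3, h2]
  push_cast
  have := mul_le_mul_of_nonneg_right hp (Nat.cast_nonneg (cnt (T \ P) G))
  calc (cnt P E : ℝ) * cnt (T \ P) G ≤ p * 2 ^ P.card * cnt (T \ P) G := this
    _ = p * (2 ^ P.card * cnt (T \ P) G) := by ring

/-- complementation -/
theorem cnt_compl (P : Finset V) (F : Finset V → Prop) :
    cnt P (fun S => F (P \ S)) = cnt P F := by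
  unfold cnt
  refine card_nbij' (fun S => P \ S) (fun S => P \ S) ?_ ?_ ?_ ?_
  · intro S hS
    rw [mem_coe, mem_fam] at hS ⊢
    exact ⟨sdiff_subset, hS.2⟩
  · intro S hS
    rw [mem_coe, mem_fam] at hS ⊢
    refine ⟨sdiff_subset, ?_⟩
    rw [Finset.sdiff_sdiff_eq_self hS.1]
    exact hS.2
  · intro S hS
    rw [mem_coe, mem_fam] at hS
    exact Finset.sdiff_sdiff_eq_self hS.1
  · intro S hS
    rw [mem_coe, mem_fam] at hS
    exact Finset.sdiff_sdiff_eq_self hS.1

/-- few sets have fewer than `s` elements -/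
theorem cnt_small (P : Finset V) (s : ℕ) :
    (cnt P (fun S => S.card < s) : ℝ) ≤ 16 ^ s * (17 / 32) ^ P.card * 2 ^ P.card := by
  have h1 : (cnt P (fun S => S.card < s) : ℝ) ≤
      ∑ S ∈ P.powerset, (16 : ℝ) ^ s * ((1 / 16) ^ S.card * 1 ^ (P.card - S.card)) := by
    unfold cnt fam
    rw [Finset.card_eq_sum_ones, Nat.cast_sum, sum_filter]
    refine sum_le_sum fun S _ => ?_
    split_ifs with h
    · obtain ⟨r, hr⟩ := Nat.exists_eq_add_of_le h.le
      rw [one_pow, mul_one, hr, pow_add]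
      have : (16 : ℝ) ^ S.card * 16 ^ r * (1 / 16) ^ S.card = 16 ^ r := by
        rw [mul_right_comm, ← mul_pow]
        norm_num
      rw [this]
      push_cast
      exact one_le_pow₀ (by norm_num)
    · positivity
  rw [← mul_sum, Finset.sum_pow_mul_eq_add_pow] at h1
  refine h1.trans (le_of_eq ?_)
  rw [mul_assoc, ← mul_pow]
  norm_num

end Pool.Agent.Lib.MP_7cd5ec_co
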