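import Pool.Agent.Lib.MP_7cd5ec_co.Clos
import Pool.Agent.Lib.MP_06c6c1_co.Lll

/-!
# MP_7cd5ec_co: the two applications of the local lemma
-/

set_option autoImplicit false

namespace Pool.Agent.Lib.MP_7cd5ec_co

open Finset
open scoped Classical

theorem cnt_eq_sum {V : Type} [Fintype V] (T : Finset V) (P : Finset V → Prop)
    [DecidablePred P] :
    ∑ x ∈ univ.filter (fun x => P x), (if x ⊆ T then (1 : ℝ) else 0) = cnt T P := by
  rw [← sum_filter, filter_filter, sum_const, nsmul_eq_mul, mul_one]
  unfold cnt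
  congr 2
  ext S
  rw [mem_filter, mem_fam]
  constructor
  · rintro ⟨-, h1, h2⟩
    exact ⟨h2, h1⟩
  · rintro ⟨h1, h2⟩
    exact ⟨mem_univ _, h2, h1⟩

/-- The local lemma for a random subset of `T`. -/
theorem lll_cnt {V ι : Type} [Fintype V] [Fintype ι] (T : Finset V) (B : ι → Finset V → Prop)
    (Γ : ι → Finset ι) (d : ℕ) (hd : ∀ v, (Γ v).card ≤ d) (p : ℝ) (hp0 : 0 ≤ p)
    (hp : 4 * p * d ≤ 1) (hp4 : 4 * p ≤ 1)
    (h : ∀ (v : ι) (Q : Finset ι), Disjoint Q (Γ v) →
      (cnt T (fun S => B v S ∧ ∀ u ∈ Q, ¬ B u S) : ℝ) ≤ p * cnt T (fun S => ∀ u ∈ Q, ¬ B u S)) :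
    ∃ S, S ⊆ T ∧ ∀ v, ¬ B v S := by
  obtain ⟨S, hS1, hS2⟩ := MP06c.lll (Ω := Finset V) (fun S => if S ⊆ T then (1 : ℝ) else 0)
    (fun S => by split_ifs <;> norm_num)
    (by
      refine Finset.sum_pos' (fun S _ => by split_ifs <;> norm_num) ⟨∅, mem_univ _, ?_⟩
      rw [if_pos (empty_subset _)]
      norm_num) B Γ d hd p hp0 hp hp4
    (by
      intro v Q hQ
      rw [cnt_eq_sum T (fun x => B v x ∧ ∀ u ∈ Q, ¬ B u x),
        cnt_eq_sum T (fun x => ∀ u ∈ Q, ¬ B u x)]
      exact h v Q hQ)
  refine ⟨S, ?_, hS2⟩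
  by_contra hcon
  rw [if_neg hcon] at hS1
  exact lt_irrefl _ hS1

section

variable {V : Type} [Fintype V] {N : V → Finset V} {T : Finset V} {K g : ℕ}

/-- Colouring `T`. -/
theorem stage1 (hN : ∀ v, (N v).card = K) (hg : 3 * g < K + 3) (M : ℕ) (hM : 1 ≤ M)
    (hT : ∀ h ∈ T, (T.filter (fun h' => ∃ u, Rch N T h u ∧ Rch N T h' u)).card ≤ M)
    (hnum : 8 * (5 / 8 : ℝ) ^ (K + 3 - 3 * g) * M ≤ 1) :
    ∃ S, S ⊆ T ∧ ∀ h ∈ T, ¬ Dead N T K g S h ∧ ¬ Dead N T K g (T \ S) h := by
  set l := K + 3 - 3 * g with hl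
  have hq : (0 : ℝ) < (5 / 8 : ℝ) ^ l := by positivity
  have hM' : (1 : ℝ) ≤ M := by exact_mod_cast hM
  obtain ⟨S, hS, hB⟩ := lll_cnt (ι := V) T
    (fun h S => h ∈ T ∧ (Dead N T K g S h ∨ Dead N T K g (T \ S) h))
    (fun h => if h ∈ T then T.filter (fun h' => ∃ u, Rch N T h u ∧ Rch N T h' u) else ∅) M
    (by
      intro h
      by_cases hh : h ∈ T
      · simp only [hh, if_true]
        exact hT h hh
      · simp [hh]) (2 * (5 / 8) ^ l) (by positivity)
    (by
      refine le_trans (le_of_eq ?_) hnum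
      ring)
    (by nlinarith)
    (by
      intro h Q hQ
      by_cases hh : h ∈ T
      · simp only [hh, if_true] at hQ
        set P : Finset V := univ.filter (fun u => Rch N T h u) with hP
        have memP : ∀ u, u ∈ P ↔ Rch N T h u := by
          intro u
          rw [hP, mem_filter]
          simp
        have hPT : P ⊆ T := fun u hu => ((memP u).mp hu).1
        have hE : ∀ S, S ⊆ T → ((h ∈ T ∧ (Dead N T K g S h ∨ Dead N T K g (T \ S) h)) ↔
            (h ∈ T ∧ (Dead N T K g (S ∩ P) h ∨ Dead N T K g (T \ (S ∩ P)) h))) := by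
          intro S hS
          have e1 : Dead N T K g S h ↔ Dead N T K g (S ∩ P) h := by
            refine Dead.loc hS (inter_subset_left.trans hS) fun u hu => ?_
            rw [mem_inter, memP]
            exact ⟨fun h1 => ⟨h1, hu⟩, fun h1 => h1.1⟩
          have e2 : Dead N T K g (T \ S) h ↔ Dead N T K g (T \ (S ∩ P)) h := by
            refine Dead.loc sdiff_subset sdiff_subset fun u hu => ?_
            rw [mem_sdiff, mem_sdiff, mem_inter, memP]
            constructor
            · rintro ⟨h1, h2⟩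
              exact ⟨h1, fun h3 => h2 h3.1⟩
            · rintro ⟨h1, h2⟩
              exact ⟨h1, fun h3 => h2 ⟨h3, hu⟩⟩
          rw [e1, e2]
        have hG : ∀ S, S ⊆ T → ((∀ u ∈ Q, ¬ (u ∈ T ∧
              (Dead N T K g S u ∨ Dead N T K g (T \ S) u))) ↔
            (∀ u ∈ Q, ¬ (u ∈ T ∧ (Dead N T K g (S \ P) u ∨ Dead N T K g (T \ (S \ P)) u)))) := by
          intro S hS
          refine forall₂_congr fun u hu => not_congr (and_congr_right fun huT => ?_)
          have hno : ∀ w, Rch N T u w → w ∉ P := by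
            intro w hw hwP
            refine disjoint_left.mp hQ hu ?_
            rw [mem_filter]
            exact ⟨huT, w, (memP w).mp hwP, hw⟩
          have e1 : Dead N T K g S u ↔ Dead N T K g (S \ P) u := by
            refine Dead.loc hS (sdiff_subset.trans hS) fun w hw => ?_
            rw [mem_sdiff]
            exact ⟨fun h1 => ⟨h1, hno w hw⟩, fun h1 => h1.1⟩
          have e2 : Dead N T K g (T \ S) u ↔ Dead N T K g (T \ (S \ P)) u := by
            refine Dead.loc sdiff_subset sdiff_subset fun w hw => ?_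
            rw [mem_sdiff, mem_sdiff, mem_sdiff]
            constructor
            · rintro ⟨h1, h2⟩
              exact ⟨h1, fun h3 => h2 h3.1⟩
            · rintro ⟨h1, h2⟩
              exact ⟨h1, fun h3 => h2 ⟨h3, hno w hw⟩⟩
          rw [e1, e2]
        refine cnt_indep hPT _ _ hE hG _ ?_
        have c1 : (cnt P (fun S => Dead N T K g S h) : ℝ) ≤ (5 / 8) ^ l * 2 ^ P.card := by
          refine cnt_three P l _ (fun S S' hSS hd => hd.mono hSS) ?_
          intro S1 S2 S3 h1 h2 h3 d1 d2 d3
          have := Dead.inter hN hg (h1.trans hPT) (h2.trans hPT) (h3.trans hPT) d1 d2 d3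
          omega
        have c2 : cnt P (fun S => Dead N T K g (T \ S) h) = cnt P (fun S => Dead N T K g S h) := by
          rw [← cnt_compl P (fun S => Dead N T K g S h)]
          refine cnt_congr fun S hS => ?_
          refine Dead.loc sdiff_subset (sdiff_subset.trans hPT) fun w hw => ?_
          rw [mem_sdiff, mem_sdiff]
          exact ⟨fun h1 => ⟨(memP w).mpr hw, h1.2⟩, fun h1 => ⟨hw.1, h1.2⟩⟩
        have c3 : cnt P (fun S => h ∈ T ∧ (Dead N T K g S h ∨ Dead N T K g (T \ S) h)) ≤
            cnt P (fun S => Dead N T K g S h) + cnt P (fun S => Dead N T K g (T \ S) h) :=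
          (cnt_mono fun S _ hS => hS.2).trans (cnt_or _ _ _)
        rw [c2] at c3
        have c4 : (cnt P (fun S => h ∈ T ∧ (Dead N T K g S h ∨ Dead N T K g (T \ S) h)) : ℝ) ≤
            cnt P (fun S => Dead N T K g S h) + cnt P (fun S => Dead N T K g S h) := by
          exact_mod_cast c3
        linarith
      · have : cnt T (fun S => (h ∈ T ∧ (Dead N T K g S h ∨ Dead N T K g (T \ S) h)) ∧
            ∀ u ∈ Q, ¬ (u ∈ T ∧ (Dead N T K g S u ∨ Dead N T K g (T \ S) u))) = 0 := by
          unfold cnt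
          rw [card_eq_zero, eq_empty_iff_forall_notMem]
          intro S hS
          exact hh (mem_fam.mp hS).2.1.1
        rw [this, Nat.cast_zero]
        positivity)
  refine ⟨S, hS, fun h hh => ?_⟩
  have := hB h
  tauto

/-- Colouring the remaining vertices `U`. -/
theorem stage2 (hN : ∀ v, (N v).card = K) (U : Finset V) (M m s t : ℕ) (hM : 1 ≤ M) (hK : 1 ≤ K)
    (hs : s ≤ m) (ht : t ≤ m) (hU : ∀ u ∈ U, (univ.filter (fun v => u ∈ N v)).card ≤ M)
    (hnum : 8 * (16 ^ m * (17 / 32 : ℝ) ^ (g - m)) * (K * M) ≤ 1) :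
    ∃ S, S ⊆ U ∧ ∀ v, g ≤ (N v ∩ U).card + m →
      s ≤ (N v ∩ S).card ∧ t ≤ (N v ∩ (U \ S)).card := by
  have hq : (0 : ℝ) < 16 ^ m * (17 / 32 : ℝ) ^ (g - m) := by positivity
  have hKM : (1 : ℝ) ≤ K * M := by
    have : 1 ≤ K * M := Nat.mul_pos hK hM
    exact_mod_cast this
  obtain ⟨S, hS, hB⟩ := lll_cnt (ι := V) U
    (fun v S => g ≤ (N v ∩ U).card + m ∧ ((N v ∩ S).card < s ∨ (N v ∩ (U \ S)).card < t))
    (fun v => univ.filter (fun v' => (N v ∩ N v' ∩ U).Nonempty)) (K * M)
    (by
      intro v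
      have h1 : univ.filter (fun v' => (N v ∩ N v' ∩ U).Nonempty) ⊆
          (N v ∩ U).biUnion (fun u => univ.filter (fun v' => u ∈ N v')) := by
        intro v' hv'
        rw [mem_filter] at hv'
        obtain ⟨u, hu⟩ := hv'.2
        rw [mem_inter, mem_inter] at hu
        rw [mem_biUnion]
        exact ⟨u, mem_inter.mpr ⟨hu.1.1, hu.2⟩, mem_filter.mpr ⟨mem_univ _, hu.1.2⟩⟩
      refine (card_le_card h1).trans (card_biUnion_le.trans ?_)
      refine (sum_le_card_nsmul _ _ M fun u hu => hU u (mem_inter.mp hu).2).trans ?_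
      rw [smul_eq_mul]
      refine Nat.mul_le_mul_right _ ?_
      rw [← hN v]
      exact card_le_card inter_subset_left) (2 * (16 ^ m * (17 / 32) ^ (g - m))) (by positivity)
    (by
      refine le_trans (le_of_eq ?_) hnum
      push_cast
      ring)
    (by nlinarith)
    (by
      intro v Q hQ
      by_cases hv : g ≤ (N v ∩ U).card + m
      · set P : Finset V := N v ∩ U with hP
        have hPU : P ⊆ U := inter_subset_right
        have hE : ∀ S, S ⊆ U → ((g ≤ P.card + m ∧
              ((N v ∩ S).card < s ∨ (N v ∩ (U \ S)).card < t)) ↔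
            (g ≤ P.card + m ∧ ((N v ∩ (S ∩ P)).card < s ∨ (N v ∩ (U \ (S ∩ P))).card < t))) := by
          intro S hS
          have e1 : N v ∩ S = N v ∩ (S ∩ P) := by
            ext x
            simp only [mem_inter, hP]
            constructor
            · rintro ⟨h1, h2⟩
              exact ⟨h1, h2, h1, hS h2⟩
            · rintro ⟨h1, h2, -⟩
              exact ⟨h1, h2⟩
          have e2 : N v ∩ (U \ S) = N v ∩ (U \ (S ∩ P)) := by
            ext x
            simp only [mem_inter, mem_sdiff, hP]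
            tauto
          rw [← e1, ← e2]
        have hG : ∀ S, S ⊆ U → ((∀ u ∈ Q, ¬ (g ≤ (N u ∩ U).card + m ∧
              ((N u ∩ S).card < s ∨ (N u ∩ (U \ S)).card < t))) ↔
            (∀ u ∈ Q, ¬ (g ≤ (N u ∩ U).card + m ∧
              ((N u ∩ (S \ P)).card < s ∨ (N u ∩ (U \ (S \ P))).card < t)))) := by
          intro S hS
          refine forall₂_congr fun u hu => ?_
          have hno : ∀ x ∈ N u, x ∈ U → x ∉ P := by
            intro x hx hxU hxP
            refine disjoint_left.mp hQ hu ?_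
            rw [mem_filter]
            exact ⟨mem_univ _, x, mem_inter.mpr ⟨mem_inter.mpr ⟨(mem_inter.mp hxP).1, hx⟩, hxU⟩⟩
          have e1 : N u ∩ S = N u ∩ (S \ P) := by
            ext x
            simp only [mem_inter, mem_sdiff]
            constructor
            · rintro ⟨h1, h2⟩
              exact ⟨h1, h2, hno x h1 (hS h2)⟩
            · rintro ⟨h1, h2, -⟩
              exact ⟨h1, h2⟩
          have e2 : N u ∩ (U \ S) = N u ∩ (U \ (S \ P)) := by
            ext x
            simp only [mem_inter, mem_sdiff]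
            constructor
            · rintro ⟨h1, h2, h3⟩
              exact ⟨h1, h2, fun h4 => h3 h4.1⟩
            · rintro ⟨h1, h2, h3⟩
              exact ⟨h1, h2, fun h4 => h3 ⟨h4, hno x h1 h2⟩⟩
          rw [← e1, ← e2]
        refine cnt_indep hPU _ _ hE hG _ ?_
        have hgP : g - m ≤ P.card := by omega
        have small : ∀ r : ℕ, r ≤ m → (cnt P (fun S => S.card < r) : ℝ) ≤
            16 ^ m * (17 / 32) ^ (g - m) * 2 ^ P.card := by
          intro r hr
          refine (cnt_small P r).trans ?_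
          have a1 : (16 : ℝ) ^ r ≤ 16 ^ m := pow_le_pow_right₀ (by norm_num) hr
          have a2 : (17 / 32 : ℝ) ^ P.card ≤ (17 / 32) ^ (g - m) :=
            pow_le_pow_of_le_one (by norm_num) (by norm_num) hgP
          gcongr
        have c1 : cnt P (fun S => (N v ∩ S).card < s) = cnt P (fun S => S.card < s) := by
          refine cnt_congr fun S hS => ?_
          have : N v ∩ S = S := inter_eq_right.mpr (hS.trans inter_subset_left)
          rw [this]
        have c2 : cnt P (fun S => (N v ∩ (U \ S)).card < t) = cnt P (fun S => S.card < t) := by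
          rw [← cnt_compl P (fun S => S.card < t)]
          refine cnt_congr fun S hS => ?_
          have : N v ∩ (U \ S) = P \ S := by
            ext x
            simp only [mem_inter, mem_sdiff, hP]
            tauto
          rw [this]
        have c3 : cnt P (fun S => g ≤ P.card + m ∧
            ((N v ∩ S).card < s ∨ (N v ∩ (U \ S)).card < t)) ≤
            cnt P (fun S => (N v ∩ S).card < s) + cnt P (fun S => (N v ∩ (U \ S)).card < t) :=
          (cnt_mono fun S _ hS => hS.2).trans (cnt_or _ _ _)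
        rw [c1, c2] at c3
        have c4 : (cnt P (fun S => g ≤ P.card + m ∧
            ((N v ∩ S).card < s ∨ (N v ∩ (U \ S)).card < t)) : ℝ) ≤
            cnt P (fun S => S.card < s) + cnt P (fun S => S.card < t) := by exact_mod_cast c3
        have c5 := small s hs
        have c6 := small t ht
        linarith
      · have : cnt U (fun S => (g ≤ (N v ∩ U).card + m ∧
            ((N v ∩ S).card < s ∨ (N v ∩ (U \ S)).card < t)) ∧
            ∀ u ∈ Q, ¬ (g ≤ (N u ∩ U).card + m ∧
              ((N u ∩ S).card < s ∨ (N u ∩ (U \ S)).card < t))) = 0 := by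
          unfold cnt
          rw [card_eq_zero, eq_empty_iff_forall_notMem]
          intro S hS
          exact hv (mem_fam.mp hS).2.1.1
        rw [this, Nat.cast_zero]
        positivity)
  refine ⟨S, hS, fun v hv => ?_⟩
  have h1 := hB v
  by_contra hcon
  apply h1
  refine ⟨hv, ?_⟩
  rw [not_and_or] at hcon
  rcases hcon with h | h
  · exact Or.inl (not_le.mp h)
  · exact Or.inr (not_le.mp h)

end

end Pool.Agent.Lib.MP_7cd5ec_co
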